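import Mathlib
import Pool.Agent.Q42.FD.Main

/-!
# Few degrees of smooth subvarieties of small codimension

Fix the codimension `r ≥ 2` and the Chern classes `c_1 h, …, c_{r-1} h ^ (r-1)` of the normal
bundle, and consider the nonsingular irreducible closed subvarieties of codimension `r` of the `P^n`,
`n ≥ N`, with these Chern classes.  The last Chern class is `m h ^ r`, where `m` is the degree.  For a
prime `p` with `2 ^ r < p ≤ N + 1 - 2 ^ r` that does not divide `m`, the polynomial
`1 + c_1 T + ⋯ + c_{r-1} T ^ (r-1) + m T ^ r` splits modulo `p`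
(`Pool.Agent.Q42.SM.splits_mod`: the Hilbert polynomial has integral values).

The residues `m` modulo `p` for which this polynomial splits are few: if it has `r` different roots
`τ`, these are solutions of `m = - (1 + c_1 τ + ⋯ + c_{r-1} τ ^ (r-1)) / τ ^ r`, and if it has a
multiple root, then this root is a root of a polynomial of degree at most `r - 1` that depends only on
`c_1, …, c_{r-1}`.  So there are at most `(p + r ^ 2) / r` such residues.  The larger sieve of Gallagher
gives a bound `K X ^ (1 / r)` for the number of the degrees in an interval of length `X` if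
`X ^ (1 / r)` is at most `N / K`.
-/

set_option autoImplicit false

namespace Pool.Agent.Results.MP_9a3fdb_ag.FewDegrees

open Pool.Agent.Q42.SM

/-- `m` is the degree, that is, the integer with `m h ^ r` as last Chern class, and
`c_1 h, …, c_{r-1} h ^ (r-1)` are the other Chern classes of the normal bundle, of some nonsingular
irreducible closed subvariety of codimension `r` of `P^n` for some `n ≥ N` -/
def IsDegree (N r : ℕ) (c : ℕ → ℤ) (m : ℤ) : Prop :=
  ∃ n ≥ N, ∃ I : Ideal (Poly n), IsSmoothVariety n r I ∧
    HasNormalChernClasses r I (Function.update c r m)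

/-- **Few degrees.** -/
theorem result (r : ℕ) (hr : 2 ≤ r) :
    ∃ K : ℝ, 0 < K ∧ ∀ (N : ℕ) (c : ℕ → ℤ) (M : ℤ) (X : ℕ) (T : Finset ℤ), 1 ≤ X →
      (∀ m ∈ T, M < m ∧ m ≤ M + X ∧ IsDegree N r c m) →
      K * (X : ℝ) ^ (1 / (r : ℝ)) ≤ N →
      (T.card : ℝ) ≤ K * (X : ℝ) ^ (1 / (r : ℝ)) :=
  Pool.Agent.Q42.FD.few_larger r hr

end Pool.Agent.Results.MP_9a3fdb_ag.FewDegrees
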