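import Mathlib
import Pool.Agent.Q42.SM.Integ
import Pool.Agent.Q42.SM.Glue

/-!
# Smooth subvarieties are numerically complete intersections modulo the primes

Let `X ⊂ P^n` be a nonsingular irreducible closed subvariety of codimension `r`, and let
`c_1, …, c_r` be the Chern classes of its normal bundle (so `c_r` is the degree of `X`).  Then there are
integers `d_1, …, d_r` such that `1 + c_1 T + ⋯ + c_r T ^ r` is congruent to
`(1 + d_1 T) ⋯ (1 + d_r T)` modulo every prime `p` with `2 ^ r < p ≤ n + 1 - 2 ^ r` which does not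
divide the degree of `X` (for `r ≤ 2` this exception is not needed).  For a complete intersection of type
`(d_1, …, d_r)` there is an equality.

The proof.  Let `δ_i` be the Chern roots, `δ_S` the sum of the `δ_i`, `i ∈ S`, and `ξ_i` the
reduction of `δ_i` modulo a prime ideal above `p`.  The Hilbert polynomial of `X` is
`∑ (-1) ^ |S| binomial (n + k - δ_S, n)`, and its values at the integers are integers.  So the
alternating sum of the values at the `-δ_S` of every integer valued polynomial of degree at most `n`
is an integer.  For the polynomials `(y ^ p - y) y ^ j / p` this says that the alternating sum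
of the `(y ^ p - y) y ^ j` is zero in characteristic `p` if `j ≤ n - p`.  By interpolation the sum of the
signs of the `S` with `ξ_S = x` is zero for all `x` outside of the prime field.  Hence, for two
additive characters `χ`, `χ'` with the same restriction to the prime field,
`∏ (1 - χ (ξ_i)) = ∏ (1 - χ' (ξ_i))`.  If some `ξ_i` is not in the prime field, there is `χ'`, not
trivial on the prime field, with `χ' (ξ_i) = 1`, and since `p > r + 1` there is `χ` with the same
restriction and with `χ (ξ_j) ≠ 1` for all `j`.  This is a contradiction.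
-/

set_option autoImplicit false

namespace Pool.Agent.Results.MP_9a3fdb_ag.ModuloPrimes

open Finset Polynomial Pool.Agent.Q42.SM

/-- **Numerically a complete intersection modulo the primes.** -/
theorem result (n r : ℕ) (hr : 1 ≤ r) (I : Ideal (Poly n)) (hI : IsSmoothVariety n r I)
    (c : ℕ → ℤ) (hc : HasNormalChernClasses r I c) :
    ∃ d : Fin r → ℤ, ∀ p : ℕ, p.Prime → 2 ^ r < p → p + 2 ^ r ≤ n + 1 →
      (r ≤ 2 ∨ ¬ (p : ℤ) ∣ c r) →
      ∀ j ≤ r, c j ≡ (∏ i, (1 + C (d i) * X) : ℤ[X]).coeff j [ZMOD p] := by
  classical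
  obtain ⟨δ, h⟩ := hc
  have hInt := integral_of_chern h
  set Q : Finset ℕ := (range (n + 2)).filter fun p => p.Prime ∧ 2 ^ r < p ∧ p + 2 ^ r ≤ n + 1 ∧
      (r ≤ 2 ∨ ¬ (p : ℤ) ∣ c r) with hQ
  obtain ⟨d, hd⟩ := all_primes n h.1 hInt Q fun p hp => (mem_filter.1 hp).2
  refine ⟨d, fun p h1 h2 h3 h4 j hj => ?_⟩
  have hp : p ∈ Q := mem_filter.2 ⟨mem_range.2 (by
    have : 0 < 2 ^ r := Nat.two_pow_pos r
    omega), h1, h2, h3, h4⟩
  have h5 : (p : ℤ) ∣ ((∏ p ∈ Q, p : ℕ) : ℤ) := by
    exact_mod_cast dvd_prod_of_mem (fun p : ℕ => p) hp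
  exact (Int.modEq_iff_dvd).2 (h5.trans (hd j hj))

end Pool.Agent.Results.MP_9a3fdb_ag.ModuloPrimes
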