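import Mathlib
import Pool.Agent.Q42.SM.Integ
import Pool.Agent.Q42.PP.Global

/-!
# Smooth subvarieties are numerically complete intersections modulo the prime powers

Let `X ⊂ P^n` be a nonsingular irreducible closed subvariety of codimension `r`, and let
`c_1, …, c_r` be the Chern classes of its normal bundle (so `c_r` is the degree of `X`).  Then there are
integers `d_1, …, d_r` such that `1 + c_1 T + ⋯ + c_r T ^ r` is congruent to
`(1 + d_1 T) ⋯ (1 + d_r T)` modulo the powers `p ^ k` of the odd primes `p` which satisfy

* `p > r`, `p` does not divide `c_r`, and `r p ^ k ≤ n`, or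
* `p > 2 ^ r + r`, `p ^ (v + 1)` does not divide `c_r`, and
  `(r (v + 1) + 2 ^ (r + 1) + 2 r + 1) p ^ k ≤ n`.

For a complete intersection of type `(d_1, …, d_r)` there is an equality.

The proof.  Let `δ_i` be the Chern roots.  The Hilbert polynomial of `X` is
`∑ (-1) ^ |S| binomial (n + k - δ_S, n)`, so the alternating sum of the values at the `-δ_S` of every
integer valued polynomial of degree at most `n` is an integer (`Pool.Agent.Q42.SM.Integ`).
Let `R` be a valuation ring of `ℂ` above `p`, with the residue field `F`, and let `q` be a power of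
`p` such that all `-δ_i` are integers modulo `q R`, but not all of them modulo `p q R`.  Write
`-δ_i = a_i + q π t_i` with integers `a_i`, with `π` and `t_i` in `R`, where `π` divides `p`, and where,
with the additive function `τ (t) = π ^ (p - 1) t ^ p - t` with values in `F`, for every `i` either
`τ (t_i)` is not zero (kind 1, which occurs), or `t_i` is zero in `F` and `a_i = 0` (kind 2) or `p q` does
not divide `a_i` (kind 3).  The test polynomials are `((b ^ p - b) / p) ^ M binomial (y, N)`, where
`b = binomial (y, q)`, and `N` is the sum of the highest powers of `p` which divide the `a_i` of kind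
3.  Modulo the maximal ideal `(b ^ p - b) / π` is the sum of a function of `a` and of `τ (t)` at
`y = a + q π t`, and so `(p / π) ^ M` times the alternating sum is the product of the `t_i` of
kind 2 with an element of `R` which is not zero in `F`, if the alternating sum of the powers of
exponent `M - w` of the sums of the `τ (t_i)` of kind 1 is not zero, where `w` is the number of the roots
of kind 2 (`main_identity`).  If `p` does not divide `c_r` there is no root of kind 2, and
`M` equal to the number of the roots of kind 1 gives a contradiction.  In general a large `M`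
gives a high power of `p` in the product `c_r` of the roots.
-/

set_option autoImplicit false

namespace Pool.Agent.Results.MP_9a3fdb_ag.PrimePowers

open Finset Polynomial Pool.Agent.Q42.SM Pool.Agent.Q42.PP

/-- **Numerically a complete intersection modulo the prime powers.** -/
theorem result (n r : ℕ) (hr : 1 ≤ r) (I : Ideal (Poly n)) (hI : IsSmoothVariety n r I)
    (c : ℕ → ℤ) (hc : HasNormalChernClasses r I c) :
    ∃ d : Fin r → ℤ, ∀ p k v : ℕ, p.Prime → p ≠ 2 →
      (r < p ∧ ¬ (p : ℤ) ∣ c r ∧ r * p ^ k ≤ n) ∨
        (2 ^ r + r < p ∧ ¬ (p : ℤ) ^ (v + 1) ∣ c r ∧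
          (r * (v + 1) + 2 ^ (r + 1) + 2 * r + 1) * p ^ k ≤ n) →
      ∀ j ≤ r, c j ≡ (∏ i, (1 + C (d i) * X) : ℤ[X]).coeff j [ZMOD (p : ℤ) ^ k] := by
  obtain ⟨δ, h⟩ := hc
  have hInt := integral_of_chern h
  obtain ⟨d, hd⟩ := all_powers n hr h.1 hInt
  refine ⟨d, fun p k v h1 h2 h3 j hj => ?_⟩
  have h4 := hd p k v h1 h2 h3 j hj
  push_cast at h4
  exact (Int.modEq_iff_dvd).2 h4

end Pool.Agent.Results.MP_9a3fdb_ag.PrimePowers
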