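import Mathlib
import Pool.Agent.Q49.RB.T3
import Pool.Agent.Q49.RB.Event

/-!
# Smooth subvarieties of small codimension with small Chern classes

Let `X ⊂ P^n` be a nonsingular irreducible closed subvariety of codimension `r`, where
`n ≥ 2 ^ (r + 8)`, and let `c_1, …, c_r` be the Chern classes of its normal bundle.  If
`|c_j| ≤ (n / (9 r)) ^ j` for all `j`, then there are integers `d_1, …, d_r` with
`1 + c_1 T + ⋯ + c_r T ^ r = (1 + d_1 T) ⋯ (1 + d_r T)`: numerically, `X` is a complete intersection.

The proof.  Let `δ_i` be the Chern roots and `δ_S` the sum of the `δ_i`, `i ∈ S`.  The Hilbert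
polynomial of `X` is `P(k) = ∑ (-1) ^ |S| binomial (n + k - δ_S, n)`, and its values at the integers
are integers.  The `δ_i` are bounded by `2 n / (9 r)`, so that for the integers `k` near the centre
of symmetry the sum has absolute value less than one.  Hence `P(k) = 0` for `2 ^ r` consecutive
integers `k` (we pass to a hyperplane section if `n` is odd).  The vectors of the values of
`binomial (k - x, n)` at these integers are linearly independent for different `x` which are not
integers.  So for such `x` the sum of the signs of the `S` with `δ_S = x` is zero.  If some `δ_i` is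
not an integer, it is not rational, and there is a functional on the rational vector space of the
complex numbers, which is zero on the rational numbers and not on `δ_i`; perturbing it by a small
multiple of the real part we get a functional whose maximum on the `δ_S` is attained only once, and
at a number which is not an integer.  This is a contradiction.
-/

set_option autoImplicit false

namespace Pool.Agent.Results.MP_9a3fdb_ag.SmallChernClasses

open Finset

/-- The polynomial ring `ℂ[x_0, …, x_n]`. -/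
abbrev Poly (n : ℕ) : Type := MvPolynomial (Fin (n + 1)) ℂ

/-- The common zeros in `ℂ^(n + 1)` of the polynomials in `I`: the affine cone over the projective
variety `X` when `I` is the homogeneous ideal of `X`. -/
def cone {n : ℕ} (I : Ideal (Poly n)) : Set (Fin (n + 1) → ℂ) :=
  {x | ∀ F ∈ I, MvPolynomial.eval x F = 0}

/-- The conormal space of `X` at `x`: the span of the gradients at `x` of the elements of `I`. -/
noncomputable def conormal {n : ℕ} (I : Ideal (Poly n)) (x : Fin (n + 1) → ℂ) :
    Submodule ℂ (Fin (n + 1) → ℂ) :=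
  Submodule.span ℂ {ξ | ∃ F ∈ I, ξ = fun i => MvPolynomial.eval x (MvPolynomial.pderiv i F)}

/-- `I` is the homogeneous ideal of a nonsingular irreducible closed subvariety `X` of
codimension `r` of the complex projective space `P^n`: it is a homogeneous prime ideal, `X` is not
empty, and at every point of `X` the gradients of the elements of `I` span a space of dimension
`r` (Jacobian criterion). -/
structure IsSmoothVariety (n r : ℕ) (I : Ideal (Poly n)) : Prop where
  prime : I.IsPrime
  homogeneous : ∀ F ∈ I, ∀ d, MvPolynomial.homogeneousComponent d F ∈ I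
  nonempty : ∃ x ∈ cone I, x ≠ 0
  smooth : ∀ x ∈ cone I, x ≠ 0 → Module.finrank ℂ (conormal I x) = r

/-- The Hilbert function of `X`: the dimension of the space of the elements of degree `k` of
the homogeneous coordinate ring. -/
noncomputable def hilb {n : ℕ} (I : Ideal (Poly n)) (k : ℕ) : ℕ :=
  Module.finrank ℂ ((MvPolynomial.homogeneousSubmodule (Fin (n + 1)) ℂ k).map
    (Ideal.Quotient.mkₐ ℂ I).toLinearMap)

/-- the binomial coefficient `x (x - 1) ⋯ (x - m + 1) / m!` of a complex number `x` -/
noncomputable def binomial (x : ℂ) (m : ℕ) : ℂ :=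
  (∏ i ∈ range m, (x - i)) / (m.factorial : ℂ)

open Polynomial in
/-- `c_1 h, …, c_r h ^ r` are the Chern classes of the normal bundle of `X`, where `h` is the
hyperplane class, in terms of the Hilbert function: `1 + c_1 T + ⋯ + c_r T ^ r` is the product of
the `1 + δ_i T`, with the Chern roots `δ_i`, and by Hirzebruch-Riemann-Roch the Hilbert polynomial
of `X` is the alternating sum of the binomial coefficients `(n + k - ∑_{i ∈ S} δ_i, n)`, where `S`
are the subsets of `{1, …, r}`. -/
def HasNormalChernClasses {n : ℕ} (r : ℕ) (I : Ideal (Poly n)) (c : ℕ → ℤ) : Prop :=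
  ∃ δ : Fin r → ℂ,
    ∏ i, (1 + C (δ i) * X) = ∑ j ∈ range (r + 1), C ((c j : ℤ) : ℂ) * X ^ j ∧
    ∃ k₀ : ℕ, ∀ k ≥ k₀, (hilb I k : ℂ) =
      ∑ S : Finset (Fin r), (-1) ^ S.card * binomial (n + k - ∑ i ∈ S, δ i) n

theorem hilb_pos {n r : ℕ} {I : Ideal (Poly n)} (hI : IsSmoothVariety n r I) (k : ℕ) :
    0 < hilb I k := by
  obtain ⟨x, hx, hx0⟩ := hI.nonempty
  obtain ⟨j, hj⟩ : ∃ j, x j ≠ 0 := by
    by_contra hcon
    push Not at hcon
    exact hx0 (funext hcon)
  have hfin : Module.Finite ℂ ((MvPolynomial.homogeneousSubmodule (Fin (n + 1)) ℂ k).map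
      (Ideal.Quotient.mkₐ ℂ I).toLinearMap) :=
    Module.Finite.iff_fg.2 ((MvPolynomial.homogeneousSubmodule_fg _ _ k).map _)
  unfold hilb
  rw [Module.finrank_pos_iff_exists_ne_zero]
  have hmem : (MvPolynomial.X j : Poly n) ^ k ∈
      MvPolynomial.homogeneousSubmodule (Fin (n + 1)) ℂ k := by
    rw [MvPolynomial.mem_homogeneousSubmodule]
    simpa using (MvPolynomial.isHomogeneous_X ℂ j).pow k
  refine ⟨⟨_, Submodule.mem_map_of_mem hmem⟩, ?_⟩
  intro h0
  have h1 : (Ideal.Quotient.mkₐ ℂ I) ((MvPolynomial.X j : Poly n) ^ k) = 0 :=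
    congrArg Subtype.val h0
  rw [Ideal.Quotient.mkₐ_eq_mk, Ideal.Quotient.eq_zero_iff_mem] at h1
  have h2 := hx _ h1
  rw [map_pow, MvPolynomial.eval_X] at h2
  exact pow_ne_zero k hj h2

open Polynomial in
/-- **Small Chern classes.** -/
theorem result (n r : ℕ) (hr : 1 ≤ r) (hn : 2 ^ (r + 8) ≤ n) (I : Ideal (Poly n))
    (hI : IsSmoothVariety n r I) (c : ℕ → ℤ) (hc : HasNormalChernClasses r I c)
    (hsmall : ∀ j, 1 ≤ j → j ≤ r → |(c j : ℝ)| ≤ ((n : ℝ) / (9 * r)) ^ j) :
    ∃ d : Fin r → ℤ, ∏ i, (1 + C (d i) * X) = ∑ j ∈ range (r + 1), C (c j) * (X : ℤ[X]) ^ j := by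
  obtain ⟨δ, hδ, k₀, hk⟩ := hc
  have hr' : (1 : ℝ) ≤ r := by exact_mod_cast hr
  have hn9 : 9 ≤ n := by
    refine le_trans ?_ hn
    calc 9 ≤ 2 ^ 8 := by norm_num
      _ ≤ 2 ^ (r + 8) := Nat.pow_le_pow_right (by norm_num) (by omega)
  have hn9' : (9 : ℝ) ≤ n := by exact_mod_cast hn9
  have hbin : ∀ x : ℂ, ∀ m : ℕ, binomial x m = Pool.Agent.Q49.RB.bin x m := fun _ _ => rfl
  have hne : ∀ i, δ i ≠ 0 := by
    intro i hi
    have h1 := hk k₀ le_rfl
    have h2 := Pool.Agent.Q49.RB.alt_zero i hi (fun x => binomial (n + k₀ - x) n)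
    unfold Pool.Agent.Q49.RB.sg at h2
    rw [h2] at h1
    have h3 := hilb_pos hI k₀
    have h4 : hilb I k₀ = 0 := by exact_mod_cast h1
    omega
  have hb := Pool.Agent.Q49.RB.root_bound hδ ((n : ℝ) / (9 * r)) (by positivity) hsmall
  have hsum : ∑ i, ‖δ i‖ ≤ ((n : ℝ) - 1) / 4 := by
    refine (sum_le_card_nsmul _ _ _ fun i _ => hb i).trans ?_
    rw [card_univ, Fintype.card_fin, nsmul_eq_mul]
    have e : (r : ℝ) * (2 * ((n : ℝ) / (9 * r))) = 2 * n / 9 := by
      field_simp
    rw [e]
    linarith
  have hI' : Pool.Agent.Q49.RB.Integral n (fun S : Finset (Fin r) => (-1) ^ S.card)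
      (fun S => -∑ i ∈ S, δ i) := by
    refine Pool.Agent.Q49.RB.integral_of_large n _ _ (n + k₀) fun k hk' => ?_
    obtain ⟨l, hl⟩ := Int.eq_ofNat_of_zero_le (show 0 ≤ k - n by omega)
    refine ⟨hilb I l, ?_⟩
    have h1 := hk l (by omega)
    push_cast
    rw [h1]
    refine sum_congr rfl fun S _ => ?_
    rw [hbin]
    congr 2
    have : (k : ℂ) = n + l := by
      have : k = n + l := by omega
      exact_mod_cast this
    rw [this]
    ring
  have hint := Pool.Agent.Q49.RB.roots_int_of_small hr n hn δ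
    (Pool.Agent.Q49.RB.root_integral hδ) hne (c 1) (Pool.Agent.Q49.RB.sum_root hδ hr) hsum
    (fun k => by
      obtain ⟨z, hz⟩ := hI' k
      refine ⟨z, ?_⟩
      rw [← hz]
      refine sum_congr rfl fun S _ => ?_
      unfold Pool.Agent.Q49.RB.sg
      push_cast
      rw [sub_eq_add_neg])
  choose d hd using hint
  exact ⟨d, Pool.Agent.Q49.RB.int_prod hδ d hd⟩

end Pool.Agent.Results.MP_9a3fdb_ag.SmallChernClasses
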